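import Mathlib

/-!
A variable whose lower tail reflects its spread, and which has almost no mass below `-1`, has a
small variance.
-/

open MeasureTheory ProbabilityTheory Set Real

namespace Pool.Agent.Lib.MP_de94ef_pr.RF

lemma sq_cut {x a A N : ℝ} (ha : |a| ≤ A) (hN : 0 < N) :
    (x - a) ^ 2 ≤ N + 8 * (x ^ 4 + A ^ 4) / N := by
  have a1 : a ^ 4 ≤ A ^ 4 := by
    have := pow_le_pow_left₀ (abs_nonneg a) ha 4
    rwa [show (4 : ℕ) = 2 * 2 by norm_num, pow_mul, sq_abs, ← pow_mul] at this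
  have a2 : ((x - a) ^ 2) ^ 2 ≤ 8 * (x ^ 4 + A ^ 4) := by
    have b1 : (x - a) ^ 2 ≤ 2 * (x ^ 2 + a ^ 2) := by nlinarith [sq_nonneg (x + a)]
    have b2 := pow_le_pow_left₀ (sq_nonneg _) b1 2
    nlinarith [sq_nonneg (x ^ 2 - a ^ 2)]
  have a0 : 0 ≤ 8 * (x ^ 4 + A ^ 4) / N := div_nonneg ((sq_nonneg _).trans a2) hN.le
  rcases le_total ((x - a) ^ 2) N with h1 | h1
  · linarith
  have a3 : (x - a) ^ 2 ≤ 8 * (x ^ 4 + A ^ 4) / N := by
    rw [le_div_iff₀ hN]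
    linarith [mul_le_mul_of_nonneg_left h1 (sq_nonneg (x - a))]
  linarith

theorem var_small {α : Type} [MeasurableSpace α] (P : Measure α) [IsProbabilityMeasure P]
    {M ε : ℝ} (hM : 0 ≤ M) (hε : 0 < ε) : ∃ (p : ℝ) (k : ℕ), 0 < p ∧ ∀ (W : α → ℝ) (p' : ℝ),
    Measurable W → Integrable (fun ω => W ω ^ 4) P → ∫ ω, W ω ^ 4 ∂P ≤ M → p' ≤ p →
    (∀ a b, p ≤ P.real {ω | W ω ≤ a} → p ≤ P.real {ω | b ≤ W ω} →
      p' ≤ P.real {ω | W ω ≤ b - 2 ^ k * (b - a) + 1}) →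
    P.real {ω | W ω ≤ -1} < p' → Var[W; P] ≤ ε := by
  obtain ⟨A, hA⟩ : ∃ A, A = 2 * M + 1 := ⟨_, rfl⟩
  have A1 : 1 ≤ A := by linarith
  obtain ⟨N, hN⟩ : ∃ N, N = 24 * (M + A ^ 4) / ε := ⟨_, rfl⟩
  have N0 : 0 < N := by rw [hN]; positivity
  obtain ⟨δ, d0, d1, d2⟩ : ∃ δ : ℝ, 0 < δ ∧ δ ≤ 1 ∧ δ ≤ ε / 12 :=
    ⟨min 1 (ε / 12), by positivity, min_le_left _ _, min_le_right _ _⟩
  obtain ⟨p, p0, p1, p2⟩ : ∃ p : ℝ, 0 < p ∧ p ≤ 1 / 2 ∧ p ≤ ε / (6 * N) :=
    ⟨min (1 / 2) (ε / (6 * N)), by positivity, min_le_left _ _, min_le_right _ _⟩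
  obtain ⟨k, hk⟩ := pow_unbounded_of_one_lt ((A + 4) / δ) (by norm_num : (1 : ℝ) < 2)
  rw [div_lt_iff₀ d0] at hk
  rw [le_div_iff₀ (by positivity)] at p2
  refine ⟨p, k, p0, fun W p' mW i4 b4 hp hR hlow => ?_⟩
  have mono : ∀ {s t : ℝ}, s ≤ t → P.real {ω | W ω ≤ s} ≤ P.real {ω | W ω ≤ t} :=
    fun h => measureReal_mono fun ω hω => le_trans hω h
  have hAS : A ∈ {t | p ≤ P.real {ω | W ω ≤ t}} := by
    have a1 := mul_meas_ge_le_integral_of_nonneg (μ := P) (f := fun ω => W ω ^ 4)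
      (ae_of_all _ fun ω => by positivity) i4 A
    have a2 : P.real {ω | W ω ≤ A}ᶜ ≤ P.real {ω | A ≤ W ω ^ 4} := measureReal_mono fun ω hω => by
      have h1 : A ≤ W ω := (not_le.1 fun h => hω h).le
      exact h1.trans (le_self_pow₀ (A1.trans h1) (by norm_num))
    rw [probReal_compl_eq_one_sub (measurableSet_le mW measurable_const)] at a2
    change p ≤ _
    nlinarith
  have hb : ∀ t ∈ {t | p ≤ P.real {ω | W ω ≤ t}}, -1 ≤ t := fun t ht => by
    by_contra hc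
    have := mono (not_le.1 hc).le
    have : p ≤ _ := ht
    linarith
  obtain ⟨a, ha⟩ : ∃ a, a = sInf {t | p ≤ P.real {ω | W ω ≤ t}} := ⟨_, rfl⟩
  have a1 : -1 ≤ a := ha ▸ le_csInf ⟨A, hAS⟩ hb
  have a2 : ∀ t, p ≤ P.real {ω | W ω ≤ t} → a ≤ t := fun t ht => ha ▸ csInf_le ⟨-1, hb⟩ ht
  obtain ⟨t, ht, t1⟩ := exists_lt_of_csInf_lt ⟨A, hAS⟩ (ha ▸ show a < a + δ by linarith)
  have a3 := a2 A hAS
  have e1 : P.real {ω | W ω ≤ a - 2 * δ} ≤ p := le_of_not_ge fun h => by linarith [a2 _ h]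
  have e2 : P.real {ω | a + 2 * δ ≤ W ω} ≤ p := le_of_not_ge fun h => by
    have b1 := mul_le_mul_of_nonneg_left (show δ ≤ a + 2 * δ - t by linarith)
      (show (0 : ℝ) ≤ 2 ^ k by positivity)
    linarith [hR t _ ht h, mono (show a + 2 * δ - 2 ^ k * (a + 2 * δ - t) + 1 ≤ -1 by linarith)]
  obtain ⟨E, hE⟩ : ∃ E, E = {ω | W ω ≤ a - 2 * δ} ∪ {ω | a + 2 * δ ≤ W ω} := ⟨_, rfl⟩
  have mE : MeasurableSet E := hE ▸
    (measurableSet_le mW measurable_const).union (measurableSet_le measurable_const mW)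
  have pE : P.real E ≤ 2 * p := by
    rw [hE]
    linarith [measureReal_union_le (μ := P) {ω | W ω ≤ a - 2 * δ} {ω | a + 2 * δ ≤ W ω}]
  have i1 : Integrable (fun ω => 4 * δ ^ 2 + E.indicator (fun _ => N) ω) P :=
    (integrable_const _).add ((integrable_const _).indicator mE)
  have i2 : Integrable (fun ω => 8 * (W ω ^ 4 + A ^ 4) / N) P :=
    ((i4.add (integrable_const _)).const_mul _).div_const _
  rw [← variance_sub_const mW.aestronglyMeasurable a]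
  refine (variance_le_expectation_sq (Measurable.aestronglyMeasurable (by fun_prop))).trans
    ((integral_mono_of_nonneg (ae_of_all _ fun ω => sq_nonneg _) (i1.add i2)
      (ae_of_all _ fun ω => ?_)).trans ?_)
  · change (W ω - a) ^ 2 ≤ 4 * δ ^ 2 + E.indicator (fun _ => N) ω + 8 * (W ω ^ 4 + A ^ 4) / N
    by_cases hω : ω ∈ E
    · rw [indicator_of_mem hω]
      linarith [sq_cut (x := W ω) (abs_le.2 ⟨by linarith, a3⟩) N0, sq_nonneg δ]
    · rw [indicator_of_notMem hω]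
      rw [hE, mem_union, not_or, mem_ofPred_eq, mem_ofPred_eq, not_le, not_le] at hω
      have : 0 ≤ 8 * (W ω ^ 4 + A ^ 4) / N := by positivity
      nlinarith [hω.1, hω.2]
  · simp only [Pi.add_apply]
    rw [integral_add i1 i2, integral_add (integrable_const _) ((integrable_const _).indicator mE),
      integral_indicator_const _ mE, integral_div, integral_const_mul 8,
      integral_add i4 (integrable_const _)]
    simp only [integral_const, probReal_univ, smul_eq_mul, one_mul]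
    have c1 : 8 * (∫ ω, W ω ^ 4 ∂P + A ^ 4) / N ≤ ε / 3 := by
      rw [div_le_iff₀ N0, hN]
      field_simp
      linarith
    nlinarith

end Pool.Agent.Lib.MP_de94ef_pr.RF
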