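import Pool.Agent.Lib.MP_de94ef_pr.RF.Iter
import Pool.Agent.Lib.MP_de94ef_pr.RF.Small

/-!
A small lower tail at scale `σ` gives concentration at scale `σ`.
-/

open MeasureTheory ProbabilityTheory Set Real Function Filter Topology
open scoped ENNReal NNReal

namespace Pool.Agent.Lib.MP_de94ef_pr.RF

open Q Q.V

lemma low_mono (Z : Env → ℝ) {s t : ℝ} (h : s ≤ t) :
    PE.real {ω | Z ω ≤ s} ≤ PE.real {ω | Z ω ≤ t} :=
  measureReal_mono fun _ hω => le_trans hω h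

lemma norm_four {x y : VV} {m S B : ℝ} (s0 : 0 < S) (hB : 0 ≤ B)
    (hU : Dom (fun ω z => z = TT ω x y - m) (B * S) (S / 3))
    (hD : Dom (fun ω z => z = m - TT ω x y) (B * S) (S / 3)) :
    Integrable (fun ω => ((TT ω x y - m) / S) ^ 4) PE ∧
      ∫ ω, ((TT ω x y - m) / S) ^ 4 ∂PE ≤ 16 * B ^ 4 + 16 := by
  obtain ⟨i1, b1⟩ := dom_pow_four (X := fun ω => TT ω x y - m) (by fun_prop) hU (by positivity)
    (by positivity)
  obtain ⟨i2, b2⟩ := dom_pow_four (X := fun ω => m - TT ω x y) (by fun_prop) hD (by positivity)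
    (by positivity)
  have e : ∀ t : ℝ, ((t - m) / S) ^ 4 = (max (t - m) 0 ^ 4 + max (m - t) 0 ^ 4) / S ^ 4 :=
    fun t => by
      rw [div_pow]
      rcases le_total t m with h | h
      · rw [max_eq_right (by linarith), max_eq_left (by linarith)]; ring
      · rw [max_eq_left (by linarith), max_eq_right (by linarith)]; ring
  simp only [e]
  refine ⟨(i1.add i2).div_const _, ?_⟩
  rw [integral_div, integral_add i1 i2, div_le_iff₀ (by positivity)]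
  have : 0 ≤ S ^ 4 := by positivity
  linarith

lemma var_unscale {x y : VV} {m S ε : ℝ} (s0 : 0 < S)
    (key : Var[fun ω => (TT ω x y - m) / S; PE] ≤ ε) : Var[fun ω => TT ω x y; PE] ≤ ε * S ^ 2 := by
  simp only [div_eq_mul_inv] at key
  rwa [variance_mul_const, variance_sub_const (measurable_TT x y).aestronglyMeasurable,
    inv_pow, ← div_eq_mul_inv, div_le_iff₀ (by positivity)] at key

lemma var_of_low {B ε : ℝ} (hB : 0 ≤ B) (hε : 0 < ε) : ∃ p K : ℝ, 0 < p ∧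
    ∀ (x y : VV) (m S : ℝ), 0 < S → K ≤ S → Dom (fun ω z => z = TT ω x y - m) (B * S) (S / 3) →
      Dom (fun ω z => z = m - TT ω x y) (B * S) (S / 3) →
      PE.real {ω | TT ω x y ≤ m - S} < p → Var[fun ω => TT ω x y; PE] ≤ ε * S ^ 2 := by
  obtain ⟨p, k, p0, h⟩ := var_small PE (M := 16 * B ^ 4 + 16) (by positivity) hε
  obtain ⟨q, C, q0, q1, hq⟩ := iter p0 k
  refine ⟨q, C, q0, fun x y m S s0 hS hU hD hlow => ?_⟩
  obtain ⟨i4, b4⟩ := norm_four s0 hB hU hD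
  have le1 : ∀ t a : ℝ, (t - m) / S ≤ a ↔ t ≤ m + a * S := fun t a => by
    rw [div_le_iff₀ s0, sub_le_iff_le_add']
  have le2 : ∀ t a : ℝ, a ≤ (t - m) / S ↔ m + a * S ≤ t := fun t a => by
    rw [le_div_iff₀ s0, le_sub_iff_add_le']
  exact var_unscale s0 (h (fun ω => (TT ω x y - m) / S) q (by fun_prop) i4 b4 q1
    (fun a b hA hB => by
      simp only [le1, le2] at hA hB ⊢
      refine (hq x y _ _ hA hB).trans (low_mono _ ?_)
      linarith)
    (by simpa only [le1, neg_mul, one_mul, ← sub_eq_add_neg] using hlow))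

theorem concStep : ∃ B ε K : ℝ, 0 ≤ B ∧ 0 < ε ∧ ∀ (μ : ℝ × ℝ → ℝ) (σ : ℝ → ℝ) (R : ℝ), IsTC μ →
    V.Sc σ → (∀ r, 1 ≤ r → K ≤ σ r) →
    (∀ v, 1 ≤ n1 v → Dom (fun ω z => z = TT ω 0 v - μ (iv v)) (B * σ (n1 v)) (σ (n1 v) / 3) →
      Dom (fun ω z => z = μ (iv v) - TT ω 0 v) (B * σ (n1 v)) (σ (n1 v) / 3) →
      Var[fun ω => TT ω 0 v; PE] ≤ ε * σ (n1 v) ^ 2) →
    1 ≤ R → Conc σ R → Conc σ (2 * R) := by
  obtain ⟨B, K0, hB, h0⟩ := V.ext (X := 3) (by norm_num)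
  obtain ⟨B0, hB0, h1⟩ := V.meanB
  obtain ⟨ε, hε, h2⟩ := V.dom_of_var (B + B0)
  refine ⟨B, ε, K0, hB, hε, fun μ σ R tc sc big hV hR conc x y r r1 r2 r3 => ?_⟩
  have pos : ∀ r, 1 ≤ r → 0 < σ r := fun r hr => lt_of_lt_of_le (by norm_num) (sc.big r hr)
  rcases le_total (n1 (y - x)) R with hc | hc
  · have a1 : 1 ≤ min r R := le_min r2 hR
    obtain ⟨a2, a3⟩ := conc x y (min r R) (le_min r1 hc) a1 (min_le_right _ _)
    have a4 := sc.mono _ _ (by linarith) (min_le_left r R)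
    exact ⟨a2.scale (pos _ a1) a4, a3.scale (pos _ a1) a4⟩
  have a1 : 1 ≤ n1 (y - x) := hR.trans hc
  have s0 := pos _ a1
  obtain ⟨a4, a5⟩ := h0 μ σ R tc sc conc big
  have a0 : n1 (y - x - 0) ≤ n1 (y - x) := by rw [sub_zero]
  have a2 := hV (y - x) a1 (by simpa only [sub_zero] using a4 0 (y - x) _ a0 a1 (r1.trans r3))
    (by simpa only [sub_zero] using a5 0 (y - x) _ a0 a1 (r1.trans r3))
  have a3 : Var[fun ω => TT ω x y; PE] = Var[fun ω => TT ω 0 (y - x); PE] := by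
    have := (measurePreserving_tau x).variance_fun_comp (measurable_TT 0 (y - x)).aemeasurable
    simpa [TT_tau] using this
  rw [← a3] at a2
  have a6 := h1 μ σ R tc sc conc (y - x) (n1 (y - x)) (tc.le _) (r1.trans r3)
  have a7 := tc.le_hh (y - x)
  have a8 := sc.mono _ _ (by linarith) r1
  have b1 := h2 (fun ω => TT ω x y) (μ (iv (y - x)) + B * σ (n1 (y - x))) _ (measurable_TT x y)
    (V.memLp_TT x y) s0 a2 (by rw [integral_TT]; nlinarith)
    ((a4 x y _ le_rfl a1 (r1.trans r3)).mono (by positivity) fun ω z hz => ⟨_, rfl, by linarith⟩)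
  have b2 := h2 (fun ω => -TT ω x y) (-μ (iv (y - x)) + B * σ (n1 (y - x))) _
    (measurable_TT x y).neg (V.memLp_TT x y).neg s0 (by rwa [variance_fun_neg])
    (by rw [integral_neg, integral_TT]; nlinarith)
    ((a5 x y _ le_rfl a1 (r1.trans r3)).mono (by positivity) fun ω z hz => ⟨_, rfl, by linarith⟩)
  rw [integral_TT] at b1
  rw [integral_neg, integral_TT] at b2
  exact ⟨b1.scale s0 a8, b2.scale s0 a8⟩

lemma var_gen : ∃ B ε K : ℝ, 0 ≤ B ∧ 0 < ε ∧ ∀ (μ : ℝ × ℝ → ℝ) (A e : ℝ), IsTC μ → 1 / 3 ≤ e →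
    e ≤ 1 / 2 → 10 ^ 30 ≤ A → K ≤ A →
    (∀ v, 1 ≤ n1 v →
      Dom (fun ω z => z = TT ω 0 v - μ (iv v)) (B * (A * n1 v ^ e)) (A * n1 v ^ e / 3) →
      Dom (fun ω z => z = μ (iv v) - TT ω 0 v) (B * (A * n1 v ^ e)) (A * n1 v ^ e / 3) →
      Var[fun ω => TT ω 0 v; PE] ≤ ε * (A * n1 v ^ e) ^ 2) →
    ∀ v, 1 ≤ n1 v → Var[fun ω => TT ω 0 v; PE] ≤ 1153 * A ^ 2 * n1 v ^ (2 * e) := by
  obtain ⟨B, ε, K, hB, hε, h⟩ := concStep
  refine ⟨B, ε, K, hB, hε, fun μ A e hμ h1 h2 A1 A2 hV v hv => ?_⟩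
  have hs : V.Sc fun r => A * r ^ e := V.sc_rpow A1 h1 h2
  have big : ∀ r : ℝ, 1 ≤ r → A ≤ A * r ^ e := fun r hr =>
    le_mul_of_one_le_right (by linarith) (one_le_rpow hr (by linarith))
  have all : ∀ n : ℕ, Conc (fun r => A * r ^ e) (2 ^ n) := by
    intro n
    induction n with
    | zero =>
      intro x y r r1 r2 r3
      obtain rfl : r = 1 := le_antisymm (by simpa using r3) r2
      have a2 : 4800 * sig 1 ≤ A * (1 : ℝ) ^ e := by
        rw [one_rpow]; linarith [sig_le_self le_rfl]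
      have a3 := sig_pos r2
      exact ⟨(dom_up x y r1 r2).scale (by linarith) a2,
        (dom_down x y r1 r2).scale (by linarith) a2⟩
    | succ n ih =>
      rw [pow_succ']
      exact h μ _ _ hμ hs (fun r hr => A2.trans (big r hr)) hV (one_le_pow₀ (by norm_num)) ih
  obtain ⟨n, hn⟩ := pow_unbounded_of_one_lt (n1 v) (by norm_num : (1 : ℝ) < 2)
  refine (V.var_conc (all n) le_rfl hv hn.le (by linarith [big _ hv])).trans (le_of_eq ?_)
  rw [mul_pow, mul_comm 2 e, rpow_mul (by linarith), rpow_two, mul_assoc]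

/-- A vanishing lower tail at scale `n ^ e` bounds the variance at the same scale. -/
theorem var_of_lower {μ : ℝ × ℝ → ℝ} (hμ : IsTC μ) {e : ℝ} (h1 : 1 / 3 ≤ e) (h2 : e ≤ 1 / 2)
    (hL : ∀ p : ℝ, 0 < p → ∃ n0 : ℝ, ∀ v, n0 ≤ n1 v →
      PE.real {ω | TT ω 0 v ≤ μ (iv v) - 2 * n1 v ^ e} < p) :
    ∃ D : ℝ, ∀ v, 1 ≤ n1 v → Var[fun ω => TT ω 0 v; PE] ≤ D * n1 v ^ (2 * e) := by
  obtain ⟨B, ε, K, hB, hε, h⟩ := var_gen
  obtain ⟨p, K1, p0, h3⟩ := var_of_low hB hε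
  obtain ⟨n0, hn⟩ := hL p p0
  obtain ⟨A, A1, A2, A3, A4⟩ : ∃ A : ℝ, 10 ^ 30 ≤ A ∧ K ≤ A ∧ n0 ≤ A ∧ K1 ≤ A :=
    ((eventually_ge_atTop _).and ((eventually_ge_atTop _).and ((eventually_ge_atTop _).and
      (eventually_ge_atTop _)))).exists
  refine ⟨_, h μ A e hμ h1 h2 A1 A2 fun v hv hU hD => ?_⟩
  have big : A ≤ A * n1 v ^ e :=
    le_mul_of_one_le_right (by linarith) (one_le_rpow hv (by linarith))
  refine h3 0 v _ _ (by linarith) (A4.trans big) hU hD ?_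
  rcases le_or_gt n0 (n1 v) with hc | hc
  · refine lt_of_le_of_lt (low_mono _ ?_) (hn v hc)
    have : 2 * n1 v ^ e ≤ A * n1 v ^ e :=
      mul_le_mul_of_nonneg_right (by linarith) (rpow_nonneg (n1_nonneg v) _)
    linarith
  · have a1 := hμ.le (iv v)
    rw [r1_iv] at a1
    rw [eq_empty_of_forall_notMem (s := {ω | TT ω 0 v ≤ μ (iv v) - A * n1 v ^ e})
      fun ω hω => by
        have a2 : TT ω 0 v ≤ _ := hω
        linarith [TT_nonneg ω 0 v], measureReal_empty]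
    exact p0

end Pool.Agent.Lib.MP_de94ef_pr.RF
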