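import Pool.Agent.Lib.MP_de94ef_pr.RF.Conc

/-!
The inner shape estimate in probability bounds the variance.
-/

open MeasureTheory ProbabilityTheory Set Real Function Filter Topology
open scoped ENNReal NNReal Pointwise

namespace Pool.Agent.Lib.MP_de94ef_pr.RF

open Q Q.V

lemma sq_up {w L δ : ℝ} (L1 : 1 ≤ L) (d0 : 0 < δ) (d1 : δ ≤ 1) :
    w ^ 2 + L * w ≤ 2 * L * δ + (if δ < w then 2 * L ^ 2 else 0) + 2 * w ^ 4 / L ^ 2 := by
  have a0 : 0 ≤ 2 * w ^ 4 / L ^ 2 := by positivity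
  have a1 : 0 ≤ L * δ := by positivity
  have a2 : L ^ 2 ≤ w ^ 2 → w ^ 2 ≤ w ^ 4 / L ^ 2 := fun h => by
    rw [le_div_iff₀ (by positivity)]
    nlinarith [mul_le_mul_of_nonneg_left h (sq_nonneg w)]
  rw [mul_div_assoc] at a0 ⊢
  split_ifs with h
  · rcases le_total w L with h1 | h1
    · nlinarith
    · nlinarith [a2 (by nlinarith)]
  · rcases le_total w (-L) with h1 | h1
    · nlinarith [a2 (by nlinarith)]
    · rcases le_total w 0 with h2 | h2
      · nlinarith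
      · nlinarith

lemma var_small_up {M ε : ℝ} (hM : 0 ≤ M) (hε : 0 < ε) : ∃ p δ : ℝ, 0 < p ∧ 0 < δ ∧
    ∀ W : Env → ℝ, Measurable W → MemLp W 2 PE → Integrable (fun ω => W ω ^ 4) PE →
    ∫ ω, W ω ^ 4 ∂PE ≤ M → 0 ≤ ∫ ω, W ω ∂PE → PE.real {ω | δ < W ω} < p → Var[W; PE] ≤ ε := by
  obtain ⟨L, hL⟩ : ∃ L, L = 6 * M / ε + 1 := ⟨_, rfl⟩
  have L0 : 0 ≤ 6 * M / ε := by positivity
  have L1 : 1 ≤ L := by linarith
  have L2 : 6 * M ≤ L * ε := (div_le_iff₀ hε).1 (by linarith)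
  refine ⟨ε / (6 * L ^ 2), min 1 (ε / (6 * L)), by positivity, by positivity,
    fun W mW i2 i4 b4 b1 hp => ?_⟩
  have d0 : 0 < min 1 (ε / (6 * L)) := by positivity
  have d1 := min_le_left 1 (ε / (6 * L))
  have d2 := (le_div_iff₀ (by positivity)).1 (min_le_right 1 (ε / (6 * L)))
  generalize min 1 (ε / (6 * L)) = δ at *
  rw [lt_div_iff₀ (by positivity)] at hp
  have mE : MeasurableSet {ω | δ < W ω} := measurableSet_lt measurable_const mW
  have j1 : Integrable (fun ω => L * W ω) PE := (i2.integrable one_le_two).const_mul L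
  have j2 : Integrable (fun ω => 2 * L * δ + {ω | δ < W ω}.indicator (fun _ => 2 * L ^ 2) ω) PE :=
    (integrable_const _).add ((integrable_const _).indicator mE)
  have j3 : Integrable (fun ω => 2 * W ω ^ 4 / L ^ 2) PE := (i4.const_mul _).div_const _
  have key := integral_mono (i2.integrable_sq.add j1) (j2.add j3) fun ω => by
    simpa only [Pi.add_apply, indicator, mem_ofPred_eq] using sq_up (w := W ω) L1 d0 d1
  simp only [Pi.add_apply] at key
  rw [integral_add i2.integrable_sq j1, integral_add j2 j3, integral_const_mul L,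
    integral_add (integrable_const _) ((integrable_const _).indicator mE),
    integral_indicator_const _ mE, integral_div, integral_const_mul 2 fun ω => W ω ^ 4] at key
  simp only [integral_const, probReal_univ, smul_eq_mul, one_mul] at key
  have c1 : 2 * (∫ ω, W ω ^ 4 ∂PE) / L ^ 2 ≤ ε / 3 := by
    rw [div_le_iff₀ (by positivity)]
    nlinarith [mul_le_mul_of_nonneg_left L1 (show 0 ≤ L * ε by positivity)]
  have c2 := variance_le_expectation_sq (μ := PE) mW.aestronglyMeasurable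
  simp only [Pi.pow_apply] at c2
  nlinarith [mul_nonneg (zero_le_one.trans L1) b1]

/-- A vanishing upper tail at scale `n ^ e` bounds the variance at the same scale. -/
theorem var_of_upper {μ : ℝ × ℝ → ℝ} (hμ : IsTC μ) {e : ℝ} (h1 : 1 / 3 ≤ e) (h2 : e ≤ 1 / 2)
    (hL : ∀ p : ℝ, 0 < p → ∃ n0 : ℝ, ∀ v, n0 ≤ n1 v →
      PE.real {ω | μ (iv v) + 2 * n1 v ^ e < TT ω 0 v} < p) :
    ∃ D : ℝ, ∀ v, 1 ≤ n1 v → Var[fun ω => TT ω 0 v; PE] ≤ D * n1 v ^ (2 * e) := by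
  obtain ⟨B, ε, K, hB, hε, h⟩ := var_gen
  obtain ⟨p, δ, p0, d0, hq⟩ := var_small_up (M := 16 * B ^ 4 + 16) (by positivity) hε
  obtain ⟨n0, hn⟩ := hL p p0
  obtain ⟨A, A1, A2, A3, A4⟩ : ∃ A : ℝ, 10 ^ 30 ≤ A ∧ K ≤ A ∧ 2 / δ ≤ A ∧
      (n0 ^ 4 + (10 ^ 18 + 1)) / ε ≤ A :=
    ((eventually_ge_atTop _).and ((eventually_ge_atTop _).and ((eventually_ge_atTop _).and
      (eventually_ge_atTop _)))).exists
  rw [div_le_iff₀ d0] at A3
  rw [div_le_iff₀ hε] at A4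
  refine ⟨_, h μ A e hμ h1 h2 A1 A2 fun v hv hU hD => ?_⟩
  have p1 : 1 ≤ n1 v ^ e := one_le_rpow hv (by linarith)
  have big : A ≤ A * n1 v ^ e := le_mul_of_one_le_right (by linarith) p1
  have s0 : 0 < A * n1 v ^ e := by linarith
  rcases le_or_gt n0 (n1 v) with hc | hc
  · obtain ⟨i4, b4⟩ := norm_four s0 hB hU hD
    refine var_unscale s0 (hq _ (by fun_prop) ?_ i4 b4 ?_
      (lt_of_le_of_lt (measureReal_mono fun ω hω => ?_) (hn v hc)))
    · simp only [div_eq_inv_mul]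
      exact ((V.memLp_TT 0 v).sub (memLp_const _)).const_mul _
    · rw [integral_div, integral_sub (integrable_TT 0 v) (integrable_const _), integral_TT]
      simpa using div_nonneg (sub_nonneg.2 (hμ.le_hh v)) s0.le
    · have a1 := (lt_div_iff₀ s0).1 (show δ < (TT ω 0 v - μ (iv v)) / (A * n1 v ^ e) from hω)
      change _ < TT ω 0 v
      nlinarith
  · have a1 := V.var_of_tail hv (m := 0) (s := 0) (D := n1 v ^ 4) le_rfl (n1_nonneg v)
      (by positivity) (by rw [div_self (by positivity), ENNReal.ofReal_one]; exact prob_le_one)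
    have a2 : n1 v ^ 4 ≤ n0 ^ 4 := pow_le_pow_left₀ (n1_nonneg v) hc.le 4
    have a3 : A ≤ (A * n1 v ^ e) ^ 2 := by nlinarith
    nlinarith

theorem var_of_inner {Ω : Type} [MeasureSpace Ω] [IsProbabilityMeasure (volume : Measure Ω)]
    {T : Ω → ℤ × ℤ → ℝ} {μ : ℝ × ℝ → ℝ} {Φ : Ω → EE → ℝ} (hΦ : MeasurePreserving Φ volume PE)
    (ha : ∀ᵐ ω ∂(volume : Measure Ω), ∀ v, T ω v = TT (Φ ω) 0 v) (hμ : IsTC μ) {ζ : ℝ}
    (z0 : 0 < ζ) (z1 : ζ ≤ 1 / 6)
    (h1 : Tendsto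
        (fun t : ℝ => ((volume : Measure Ω) {ω | ¬ (((1 - t ^ (-(2 / 3 : ℝ) + ζ)) * t) •
            {x : ℝ × ℝ | μ x ≤ 1} ⊆ {x : ℝ × ℝ | ∃ v : ℤ × ℤ, T ω v ≤ t ∧
            |x.1 - (v.1 : ℝ)| ≤ 1 / 2 ∧ |x.2 - (v.2 : ℝ)| ≤ 1 / 2})}).toReal) atTop (𝓝 0)) :
    ∃ D : ℝ, ∀ v, 1 ≤ n1 v → Var[fun ω => TT ω 0 v; PE] ≤ D * n1 v ^ (2 * (1 / 3 + ζ)) := by
  refine var_of_upper hμ (by linarith) (by linarith) fun p p0 => ?_
  obtain ⟨a, ha'⟩ : ∃ a, a = 1 / 3 + ζ := ⟨_, rfl⟩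
  have a0 : 0 < a := by linarith
  obtain ⟨t0, ht0⟩ := eventually_atTop.1 ((h1.eventually_lt_const p0).and
    (((tendsto_rpow_atTop (show 0 < 1 - a by linarith)).eventually_ge_atTop 2).and
      (eventually_ge_atTop 1)))
  have t1 : 1 ≤ t0 := (ht0 t0 le_rfl).2.2
  rw [← ha']
  refine ⟨11 * t0, fun v hv => ?_⟩
  have n0 : 0 < n1 v := by linarith
  have m1 := hμ.le (iv v)
  have m2 := hμ.ge (iv v)
  rw [r1_iv] at m1 m2
  have s0 : 0 < n1 v ^ a := rpow_pos_of_pos n0 _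
  have s1 : 2 * n1 v ^ a ≤ n1 v := by
    have d1 := (ht0 (n1 v) (by linarith)).2.1
    have d2 : n1 v ^ (1 - a) * n1 v ^ a = n1 v := by
      rw [← rpow_add n0, sub_add_cancel, rpow_one]
    nlinarith
  obtain ⟨t, ht⟩ : ∃ t, t = μ (iv v) + 2 * n1 v ^ a := ⟨_, rfl⟩
  have t2 : t0 ≤ t := by linarith
  have key : t ^ (-(2 / 3 : ℝ) + ζ) * t = t ^ a := by
    rw [← rpow_add_one (by linarith), ha']; congr 1; ring
  have d1 : t ^ a ≤ 2 * n1 v ^ a := by
    refine (rpow_le_rpow (by linarith) (show t ≤ 2 * n1 v by linarith) a0.le).trans ?_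
    rw [mul_rpow (by norm_num) n0.le]
    exact mul_le_mul_of_nonneg_right ((rpow_le_rpow_of_exponent_le (by norm_num)
      (by linarith)).trans (rpow_one 2).le) s0.le
  rw [← ht]
  refine lt_of_le_of_lt (ENNReal.toReal_mono (measure_ne_top _ _) ?_) (ht0 t t2).1
  rw [← hΦ.measure_preimage
    (measurableSet_lt measurable_const (measurable_TT 0 v)).nullMeasurableSet]
  refine measure_mono_ae ?_
  filter_upwards [ha] with ω hω hE hsub
  obtain ⟨w, f1, f2, f3⟩ := hsub (a := iv v) (by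
    rw [sub_mul, one_mul, key, mem_smul_ball hμ (by linarith)]
    linarith)
  rw [show w = v from Prod.ext (V.int_eq f2) (V.int_eq f3), hω v] at f1
  exact absurd hE (not_lt.2 f1)

end Pool.Agent.Lib.MP_de94ef_pr.RF
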