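import Pool.Agent.Lib.MP_de94ef_pr.RF.Step
import Pool.Agent.Lib.MP_de94ef_pr.W.Fkg

/-!
Repeated reflection for passage times.
-/

open MeasureTheory ProbabilityTheory Set Real Function Filter Topology
open scoped ENNReal

namespace Pool.Agent.Lib.MP_de94ef_pr.RF

open Q Q.V

lemma stepT {p : ℝ} (p0 : 0 < p) (x y : VV) {a b : ℝ}
    (hA : p ≤ (PP EE).real {ω | TT ω x y ≤ a}) (hB : p ≤ (PP EE).real {ω | b ≤ TT ω x y}) :
    exp (-KK (p / 2)) ≤ (PP EE).real {ω | TT ω x y ≤ 2 * a - b + (4 + KK (p / 2))} := by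
  classical
  have h1 := tendsto_measure_iUnion_atTop (μ := PP EE)
    (s := fun N : ℕ => {ω | ∀ L ≥ N, TL L x y ω ≤ a + 1})
    fun N N' h ω hω L hL => hω L (h.trans hL)
  have h2 : ENNReal.ofReal (p / 2) < PP EE (⋃ N : ℕ, {ω | ∀ L ≥ N, TL L x y ω ≤ a + 1}) := by
    refine ((ENNReal.ofReal_lt_ofReal_iff p0).2 (half_lt_self p0)).trans_le
      (((ENNReal.ofReal_le_iff_le_toReal (measure_ne_top _ _)).2 hA).trans
        (measure_mono fun ω hω => mem_iUnion.2 ?_))
    exact eventually_atTop.1 (((tendsto_TL x y ω).eventually_lt_const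
      (show TT ω x y < a + 1 from lt_add_one a |>.trans_le' hω)).mono fun _ h => h.le)
  obtain ⟨L, h3, hL⟩ := ((h1.eventually_const_lt h2).and (eventually_n1 x y)).exists
  have h4 : p / 2 ≤ (PP EE).real {ω | TL L x y ω ≤ a + 1} :=
    (ENNReal.ofReal_le_iff_le_toReal (measure_ne_top _ _)).1
      (h3.le.trans (measure_mono fun ω hω => hω L le_rfl))
  refine (step (measurable_TL L x y) (mono_TL hL) (TL_lip hL) (dependsOn_TL L x y) (TL_mid hL)
    (b := b) (half_pos p0) h4 ((half_le_self p0.le).trans (hB.trans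
      (measureReal_mono fun ω hω => le_trans hω (TT_le_TL hL ω))))).trans
    (measureReal_mono fun ω hω => ?_)
  have h5 : TL L x y ω ≤ _ := hω
  change TT ω x y ≤ _
  linarith [TT_le_TL hL ω]

/-- Repeated reflection of the lower tail of a passage time. -/
theorem iter {p : ℝ} (p0 : 0 < p) (k : ℕ) : ∃ p' C : ℝ, 0 < p' ∧ p' ≤ p ∧ ∀ (x y : VV) (a b : ℝ),
    p ≤ (PP EE).real {ω | TT ω x y ≤ a} → p ≤ (PP EE).real {ω | b ≤ TT ω x y} →
    p' ≤ (PP EE).real {ω | TT ω x y ≤ b - 2 ^ k * (b - a) + C} := by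
  induction k with
  | zero => exact ⟨p, 0, p0, le_rfl, fun x y a b h _ => by simpa using h⟩
  | succ k ih =>
    obtain ⟨q, C, q0, q1, h⟩ := ih
    refine ⟨min p (exp (-KK (q / 2))), 2 * C + (4 + KK (q / 2)), by positivity, min_le_left _ _,
      fun x y a b hA hB => (min_le_right _ _).trans
        ((stepT q0 x y (h x y a b hA hB) (q1.trans hB)).trans (le_of_eq ?_))⟩
    congr 4
    ring_nf

end Pool.Agent.Lib.MP_de94ef_pr.RF
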