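import Pool.Agent.Lib.MP_de94ef_pr.Tensor

/-!
A three function inequality for the exponential law on one coordinate.
-/

open MeasureTheory ProbabilityTheory Set Real Function Filter Topology
open scoped ENNReal

namespace Pool.Agent.Lib.MP_de94ef_pr.RF

lemma integral_nu {f : ℝ → ℝ} (hf : Measurable f) (h0 : ∀ x, 0 ≤ f x) :
    ∫ x, f x ∂nu = ∫ x in Ioi (0 : ℝ), exp (-x) * f x := by
  rw [integral_eq_lintegral_of_nonneg_ae (ae_of_all _ h0) hf.aestronglyMeasurable,
    integral_eq_lintegral_of_nonneg_ae (ae_of_all _ fun x => mul_nonneg (exp_pos _).le (h0 x))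
      (Measurable.aestronglyMeasurable (by fun_prop)), lintegral_nu (by fun_prop)]
  simp only [ENNReal.ofReal_mul (exp_pos _).le]

lemma key_ineq {r : ℝ} (hr : 1 ≤ r) : 0 ≤ 4 * (r * log r) + (8 - 2 * r⁻¹ - 6 * r) := by
  have r0 : 0 < r := by linarith
  have t0 : 0 < r⁻¹ := inv_pos.2 r0
  have t1 : r⁻¹ ≤ 1 := inv_le_one_of_one_le₀ hr
  have h := hasSum_pow_div_log_of_abs_lt_one (x := 1 - r⁻¹)
    (abs_lt.2 ⟨by linarith, by linarith⟩)
  have h2 := sum_le_hasSum (Finset.range 2)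
    (fun n _ => div_nonneg (pow_nonneg (by linarith) _) (by positivity)) h
  rw [sub_sub_cancel, log_inv, neg_neg] at h2
  simp only [Finset.sum_range_succ, Finset.sum_range_zero] at h2
  norm_num at h2
  have h3 := mul_le_mul_of_nonneg_left h2 r0.le
  have e : r * r⁻¹ = 1 := mul_inv_cancel₀ r0.ne'
  have e2 : r * r⁻¹ ^ 2 = r⁻¹ := by rw [sq, ← mul_assoc, e, one_mul]
  nlinarith

lemma int_exp_bdd {f : ℝ → ℝ} (hf : Bdd f) (a : ℝ) :
    IntegrableOn (fun x => exp (-x) * f x) (Ioi a) := by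
  obtain ⟨h1, M, hM⟩ := hf
  exact (integrableOn_exp_neg_Ioi a).mul_bdd h1.aestronglyMeasurable (ae_of_all _ hM)

lemma int_lin {F : ℝ → ℝ} (hF : Continuous F) {C : ℝ} (hC : 0 ≤ C)
    (h : ∀ y, 0 < y → |F y| ≤ C * (1 + y) * exp (-y)) : IntegrableOn F (Ioi 0) := by
  refine ((exp_neg_integrableOn_Ioi 0 (b := 1 / 2) (by norm_num)).const_mul (2 * C)).mono'
    hF.aestronglyMeasurable ((ae_restrict_iff' measurableSet_Ioi).2 (ae_of_all _ fun y hy => ?_))
  refine (h y hy).trans ?_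
  have a1 := add_one_le_exp (y / 2)
  have a2 : exp (-(1 / 2) * y) = exp (y / 2) * exp (-y) := by rw [← exp_add]; congr 1; ring
  have a3 : 1 + y ≤ 2 * exp (y / 2) := by linarith
  rw [a2]
  calc C * (1 + y) * exp (-y) ≤ C * (2 * exp (y / 2)) * exp (-y) := by gcongr
    _ = _ := by ring

/-- The hazard rate of the law with density proportional to `p`. -/
lemma hazard {p : ℝ → ℝ} (hc : Continuous p) (ha : Antitone p) {m M : ℝ} (m0 : 0 < m)
    (hm : ∀ y, m ≤ p y) (hM : ∀ y, p y ≤ M) :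
    ∃ R ρ : ℝ → ℝ, R 0 = 0 ∧ (∀ y, HasDerivAt R (ρ y) y) ∧ Continuous ρ ∧ (∀ y, 1 ≤ ρ y) ∧
      (∀ y, ρ y ≤ M / m) ∧ ∀ y, p y = (∫ x, p x ∂nu) * (ρ y * exp (y - R y)) := by
  have p0 : ∀ y, 0 < p y := fun y => m0.trans_le (hm y)
  have hb : Bdd p := ⟨hc.measurable, M, fun y => by rw [abs_of_pos (p0 y)]; exact hM y⟩
  set S : ℝ → ℝ := fun y => ∫ x in Ioi y, exp (-x) * p x with hS
  have hi := int_exp_bdd hb
  have cst : ∀ c y : ℝ, ∫ x in Ioi y, exp (-x) * c = exp (-y) * c := fun c y => by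
    rw [integral_mul_const, integral_exp_neg_Ioi]
  have lo : ∀ y, exp (-y) * m ≤ S y := fun y => by
    rw [← cst]
    exact setIntegral_mono (int_exp_bdd (Bdd.const m) y) (hi y) fun x => by
      have := hm x
      simp only
      gcongr
  have up : ∀ y, S y ≤ exp (-y) * p y := fun y => by
    rw [← cst]
    exact setIntegral_mono_on (hi y) (int_exp_bdd (Bdd.const _) y) measurableSet_Ioi fun x hx => by
      have := ha (le_of_lt hx)
      gcongr
  have S0 : ∀ y, 0 < S y := fun y => lt_of_lt_of_le (by positivity) (lo y)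
  have dS : ∀ y, HasDerivAt S (-(exp (-y) * p y)) y := fun y => by
    have e : S = fun u => S 0 - ∫ x in (0 : ℝ)..u, exp (-x) * p x := funext fun u => by
      rw [← intervalIntegral.integral_Ioi_sub_Ioi' (hi 0) (hi u)]; simp [hS]
    rw [e]
    exact ((Continuous.integral_hasStrictDerivAt (f := fun x => exp (-x) * p x)
      (by fun_prop) 0 y).hasDerivAt).const_sub _
  have cS : Continuous S := continuous_iff_continuousAt.2 fun y => (dS y).continuousAt
  refine ⟨fun y => log (S 0) - log (S y), fun y => exp (-y) * p y / S y, by simp, fun y => ?_,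
    Continuous.div (by fun_prop) cS fun y => (S0 y).ne', fun y => (one_le_div (S0 y)).2 (up y),
    fun y => ?_, fun y => ?_⟩
  · have := ((dS y).log (S0 y).ne').const_sub (log (S 0))
    rwa [neg_div, neg_neg] at this
  · rw [div_le_div_iff₀ (S0 y) m0]
    have a1 := mul_le_mul (hM y) (lo y) (by positivity) ((p0 y).le.trans (hM y))
    linarith
  · rw [integral_nu hc.measurable fun y => (p0 y).le]
    change p y = S 0 * (exp (-y) * p y / S y * exp (y - (log (S 0) - log (S y))))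
    rw [exp_sub, exp_sub, exp_log (S0 _), exp_log (S0 _), exp_neg]
    have := (S0 0).ne'
    have := (S0 y).ne'
    field_simp

lemma change {φ φ' f : ℝ → ℝ} (h0 : φ 0 = 0) (hd : ∀ y, HasDerivAt φ (φ' y) y)
    (hp : ∀ y, 0 < φ' y) (hf : Bdd f) (f0 : ∀ x, 0 ≤ f x) :
    IntegrableOn (fun y => φ' y * (exp (-φ y) * f (φ y))) (Ioi 0) ∧
      ∫ y in Ioi (0 : ℝ), φ' y * (exp (-φ y) * f (φ y)) ≤ ∫ x, f x ∂nu := by
  have sm := strictMono_of_hasDerivAt_pos hd hp
  have sub : φ '' Ioi 0 ⊆ Ioi 0 := by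
    rintro _ ⟨y, hy, rfl⟩
    have := sm hy
    rwa [h0] at this
  have a1 := (integrableOn_image_iff_integrableOn_abs_deriv_smul measurableSet_Ioi
    (fun y _ => (hd y).hasDerivWithinAt) sm.injective.injOn fun x => exp (-x) * f x).1
    ((int_exp_bdd hf 0).mono_set sub)
  have a2 := integral_image_eq_integral_abs_deriv_smul measurableSet_Ioi
    (fun y (_ : y ∈ Ioi (0 : ℝ)) => (hd y).hasDerivWithinAt) sm.injective.injOn
    fun x => exp (-x) * f x
  simp only [abs_of_pos (hp _), smul_eq_mul] at a1 a2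
  refine ⟨a1, ?_⟩
  rw [← a2, integral_nu hf.1 f0]
  exact setIntegral_mono_set (int_exp_bdd hf 0)
    (ae_of_all _ fun x => mul_nonneg (exp_pos _).le (f0 x)) sub.eventuallyLE

theorem one {p g u : ℝ → ℝ} (hc : Continuous p) (ha : Antitone p) {m M : ℝ} (m0 : 0 < m)
    (hm : ∀ y, m ≤ p y) (hM : ∀ y, p y ≤ M) (hg : Bdd g) (g0 : ∀ x, 0 ≤ g x) (hu : Bdd u)
    (u0 : ∀ x, 0 ≤ u x)
    (H : ∀ x y z, 0 < x → 0 < y → 0 < z →
      p y ^ 6 * exp (-g x - max (z + x - 2 * y) 0) ≤ u z) :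
    (∫ x, p x ∂nu) ^ 6 * exp (-∫ x, g x ∂nu) ≤ ∫ x, u x ∂nu := by
  obtain ⟨R, ρ, R0, dR, cρ, ρ1, ρD, hp⟩ := hazard hc ha m0 hm hM
  generalize ∫ x, p x ∂nu = Z at hp
  generalize M / m = D at ρD
  generalize hΓ : ∫ x, g x ∂nu = Γ
  have Γ0 : 0 ≤ Γ := hΓ ▸ integral_nonneg g0
  have ρ0 : ∀ y, 0 < ρ y := fun y => one_pos.trans_le (ρ1 y)
  have D1 : 1 ≤ D := (ρ1 0).trans (ρD 0)
  have ci : Continuous fun y => (ρ y)⁻¹ := cρ.inv₀ fun y => (ρ0 y).ne'
  have i0 : ∀ y, 0 < (ρ y)⁻¹ := fun y => inv_pos.2 (ρ0 y)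
  have i1 : ∀ y, (ρ y)⁻¹ ≤ 1 := fun y => inv_le_one_of_one_le₀ (ρ1 y)
  obtain ⟨z, z0, dz⟩ : ∃ z : ℝ → ℝ, z 0 = 0 ∧ ∀ y, HasDerivAt z (ρ y)⁻¹ y :=
    ⟨fun y => ∫ t in (0 : ℝ)..y, (ρ t)⁻¹, by simp,
      fun y => (ci.integral_hasStrictDerivAt 0 y).hasDerivAt⟩
  have cR : Continuous R := continuous_iff_continuousAt.2 fun y => (dR y).continuousAt
  have cz : Continuous z := continuous_iff_continuousAt.2 fun y => (dz y).continuousAt
  have mono : ∀ a b c : ℝ, (∀ y, 0 ≤ a + b * (ρ y)⁻¹ + c * ρ y) → ∀ y, 0 < y →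
      0 ≤ a * y + b * z y + c * R y := fun a b c h y hy => by
    have := monotone_of_hasDerivAt_nonneg (f := fun y => a * y + b * z y + c * R y)
      (f' := fun y => a + b * (ρ y)⁻¹ + c * ρ y) (fun y => by
        have := (((hasDerivAt_id' y).const_mul a).fun_add ((dz y).const_mul b)).fun_add
          ((dR y).const_mul c)
        rwa [mul_one] at this) h hy.le
    simpa [z0, R0] using this
  have b1 := mono (-1) 0 1 fun y => by linarith [ρ1 y]
  have b2 := mono D 0 (-1) fun y => by linarith [ρD y]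
  have b3 := mono 1 (-1) 0 fun y => by linarith [i1 y]
  have b4 := mono (-2) 1 1 fun y => by
    have e : ρ y * (ρ y)⁻¹ = 1 := mul_inv_cancel₀ (ρ0 y).ne'
    have := ρ0 y
    by_contra hh
    nlinarith [sq_nonneg (ρ y - 1), mul_pos this (neg_pos.2 (not_le.1 hh))]
  have zp : ∀ y, 0 < y → 0 < z y := fun y hy => by
    have := strictMono_of_hasDerivAt_pos dz i0 hy
    rwa [z0] at this
  obtain ⟨iu, lu⟩ := change z0 dz i0 hu u0
  obtain ⟨ig, lg⟩ := change R0 dR ρ0 hg g0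
  rw [hΓ] at lg
  have dΦ : ∀ y, HasDerivAt (fun y => -(1 + Γ + (8 * y - 2 * z y - 6 * R y)) * exp (-R y))
      ((-(8 - 2 * (ρ y)⁻¹ - 6 * ρ y) + (1 + Γ + (8 * y - 2 * z y - 6 * R y)) * ρ y) *
        exp (-R y)) y := fun y => by
    have := ((((((hasDerivAt_id' y).const_mul 8).fun_sub ((dz y).const_mul 2)).fun_sub
      ((dR y).const_mul 6)).const_add (1 + Γ)).fun_neg).fun_mul (dR y).fun_neg.exp
    exact this.congr_deriv (by ring)
  have bA : ∀ y, 0 < y → |1 + Γ + (8 * y - 2 * z y - 6 * R y)| ≤ (Γ + 16 * D) * (1 + y) :=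
    fun y hy => by
      have := b1 y hy; have := b2 y hy; have := b3 y hy; have := zp y hy
      have := mul_nonneg Γ0 hy.le
      have := mul_le_mul_of_nonneg_right D1 hy.le
      exact abs_le.2 ⟨by nlinarith, by nlinarith⟩
  have bE : ∀ y, 0 < y → exp (-R y) ≤ exp (-y) := fun y hy =>
    exp_le_exp.2 (by linarith [b1 y hy])
  have iΦ : IntegrableOn (fun y => -(1 + Γ + (8 * y - 2 * z y - 6 * R y)) * exp (-R y)) (Ioi 0) :=
    int_lin (by fun_prop) (C := Γ + 16 * D) (by positivity) fun y hy => by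
      rw [abs_mul, abs_neg, abs_of_pos (exp_pos _)]
      exact mul_le_mul (bA y hy) (bE y hy) (exp_pos _).le (by positivity)
  have iΦ' : IntegrableOn (fun y => (-(8 - 2 * (ρ y)⁻¹ - 6 * ρ y) +
      (1 + Γ + (8 * y - 2 * z y - 6 * R y)) * ρ y) * exp (-R y)) (Ioi 0) :=
    int_lin (by fun_prop) (C := 16 * D + (Γ + 16 * D) * D) (by positivity) fun y hy => by
      rw [abs_mul, abs_of_pos (exp_pos _)]
      refine mul_le_mul ((abs_add_le _ _).trans ?_) (bE y hy) (exp_pos _).le (by positivity)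
      have c1 : |-(8 - 2 * (ρ y)⁻¹ - 6 * ρ y)| ≤ 16 * D * (1 + y) := by
        have := ρ1 y; have := ρD y; have := i0 y; have := i1 y
        have := mul_nonneg (zero_le_one.trans D1) hy.le
        exact abs_le.2 ⟨by nlinarith, by nlinarith⟩
      have c2 : |(1 + Γ + (8 * y - 2 * z y - 6 * R y)) * ρ y| ≤ (Γ + 16 * D) * (1 + y) * D := by
        rw [abs_mul, abs_of_pos (ρ0 y)]
        exact mul_le_mul (bA y hy) (ρD y) (ρ0 y).le (by positivity)
      linarith
  have ftc := integral_Ioi_of_hasDerivAt_of_tendsto' (fun y _ => dΦ y) iΦ'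
    (tendsto_zero_of_hasDerivAt_of_integrableOn_Ioi (fun y _ => dΦ y) iΦ' iΦ)
  simp only [z0, R0] at ftc
  have c0 : 0 ≤ Z ^ 6 * exp (-Γ) := by positivity
  refine le_trans ?_ ((setIntegral_mono_on ((iΦ'.sub ig).const_mul (Z ^ 6 * exp (-Γ))) iu
    measurableSet_Ioi fun y hy => ?_).trans lu)
  · simp only [Pi.sub_apply]
    rw [integral_const_mul, integral_sub iΦ' ig, ftc]
    refine le_mul_of_one_le_right c0 ?_
    simp only [neg_zero, exp_zero]
    linarith
  · have hy' : 0 < y := hy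
    have d1 := H (R y) y (z y) (by linarith [b1 y hy']) hy' (zp y hy')
    rw [max_eq_left (by linarith [b4 y hy']), hp y] at d1
    have d2 := add_one_le_exp (Γ - g (R y) + 4 * log (ρ y) + (8 * y - 2 * z y - 6 * R y))
    have d3 := key_ineq (ρ1 y)
    have d4 : (ρ y)⁻¹ * (exp (-z y) * ((Z * (ρ y * exp (y - R y))) ^ 6 *
        exp (-g (R y) - (z y + R y - 2 * y)))) = Z ^ 6 * exp (-Γ) * (ρ y * exp (-R y) *
        exp (Γ - g (R y) + 4 * log (ρ y) + (8 * y - 2 * z y - 6 * R y))) := by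
      obtain ⟨l, hl⟩ : ∃ l, ρ y = exp l := ⟨_, (exp_log (ρ0 y)).symm⟩
      rw [hl, log_exp, ← exp_neg, ← exp_add, mul_pow, ← exp_nat_mul]
      calc _ = Z ^ 6 * (exp (-l) * exp (-z y) * exp ((6 : ℕ) * (l + (y - R y))) *
            exp (-g (R y) - (z y + R y - 2 * y))) := by ring
        _ = Z ^ 6 * (exp (-Γ) * (exp l * exp (-R y) *
            exp (Γ - g (R y) + 4 * l + (8 * y - 2 * z y - 6 * R y)))) := by
          simp only [← exp_add]; congr 2; push_cast; ring
        _ = _ := by ring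
    have e0 := exp_pos (-R y)
    simp only [Pi.sub_apply]
    calc _ ≤ Z ^ 6 * exp (-Γ) * (ρ y * exp (-R y) *
          exp (Γ - g (R y) + 4 * log (ρ y) + (8 * y - 2 * z y - 6 * R y))) := by
          refine mul_le_mul_of_nonneg_left ?_ c0
          have d5 := mul_le_mul_of_nonneg_left d2 (mul_pos (ρ0 y) e0).le
          have d6 := mul_nonneg d3 e0.le
          nlinarith
      _ ≤ _ := by
          rw [← d4]
          have := i0 y
          gcongr

end Pool.Agent.Lib.MP_de94ef_pr.RF
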