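import Pool.Agent.Lib.MP_de94ef_pr.RF.Conc

/-!
The outer shape estimate in probability bounds the variance.
-/

open MeasureTheory ProbabilityTheory Set Real Function Filter Topology
open scoped ENNReal NNReal Pointwise

namespace Pool.Agent.Lib.MP_de94ef_pr.RF

open Q Q.V

theorem var_of_outer {Ω : Type} [MeasureSpace Ω] [IsProbabilityMeasure (volume : Measure Ω)]
    {T : Ω → ℤ × ℤ → ℝ} {μ : ℝ × ℝ → ℝ} {Φ : Ω → EE → ℝ} (hΦ : MeasurePreserving Φ volume PE)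
    (ha : ∀ᵐ ω ∂(volume : Measure Ω), ∀ v, T ω v = TT (Φ ω) 0 v) (hμ : IsTC μ) {ζ : ℝ}
    (z0 : 0 < ζ) (z1 : ζ ≤ 1 / 6)
    (h1 : Tendsto
        (fun t : ℝ => ((volume : Measure Ω) {ω | ¬ ({x : ℝ × ℝ | ∃ v : ℤ × ℤ, T ω v ≤ t ∧
            |x.1 - (v.1 : ℝ)| ≤ 1 / 2 ∧ |x.2 - (v.2 : ℝ)| ≤ 1 / 2} ⊆
            ((1 + t ^ (-(2 / 3 : ℝ) + ζ)) * t) • {x : ℝ × ℝ | μ x ≤ 1})}).toReal) atTop (𝓝 0)) :
    ∃ D : ℝ, ∀ v, 1 ≤ n1 v → Var[fun ω => TT ω 0 v; PE] ≤ D * n1 v ^ (2 * (1 / 3 + ζ)) := by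
  refine var_of_lower hμ (by linarith) (by linarith) fun p p0 => ?_
  obtain ⟨a, ha'⟩ : ∃ a, a = 1 / 3 + ζ := ⟨_, rfl⟩
  have a0 : 0 < a := by linarith
  obtain ⟨t0, ht0⟩ := eventually_atTop.1 ((h1.eventually_lt_const p0).and
    (((tendsto_rpow_atTop (show 0 < 1 - a by linarith)).eventually_ge_atTop 44).and
      (eventually_ge_atTop 1)))
  have t1 : 1 ≤ t0 := (ht0 t0 le_rfl).2.2
  rw [← ha']
  refine ⟨22 * t0, fun v hv => ?_⟩
  have n0 : 0 < n1 v := by linarith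
  have m1 := hμ.le (iv v)
  have m2 := hμ.ge (iv v)
  rw [r1_iv] at m1 m2
  have s0 : 0 < n1 v ^ a := rpow_pos_of_pos n0 _
  have s1 : 44 * n1 v ^ a ≤ n1 v := by
    have d1 := (ht0 (n1 v) (by linarith)).2.1
    have d2 : n1 v ^ (1 - a) * n1 v ^ a = n1 v := by
      rw [← rpow_add n0, sub_add_cancel, rpow_one]
    nlinarith
  obtain ⟨t, ht⟩ : ∃ t, t = μ (iv v) - 2 * n1 v ^ a := ⟨_, rfl⟩
  have t2 : t0 ≤ t := by linarith
  have key : t ^ (-(2 / 3 : ℝ) + ζ) * t = t ^ a := by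
    rw [← rpow_add_one (by linarith), ha']; congr 1; ring
  have d1 : t ^ a ≤ n1 v ^ a := rpow_le_rpow (by linarith) (by linarith) a0.le
  have d2 : 0 ≤ t ^ a := rpow_nonneg (by linarith) _
  rw [← ht]
  refine lt_of_le_of_lt (ENNReal.toReal_mono (measure_ne_top _ _) ?_) (ht0 t t2).1
  rw [← hΦ.measure_preimage
    (measurableSet_le (measurable_TT 0 v) measurable_const).nullMeasurableSet]
  refine measure_mono_ae ?_
  filter_upwards [ha] with ω hω hE hsub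
  have d3 := hsub (a := iv v) ⟨v, (hω v).le.trans hE, by simp [iv], by simp [iv]⟩
  rw [add_mul, one_mul, key, mem_smul_ball hμ (by linarith)] at d3
  linarith

end Pool.Agent.Lib.MP_de94ef_pr.RF
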