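import Pool.Agent.Lib.MP_de94ef_pr.RF.One

/-!
The three function inequality for the product of exponential laws.
-/

open MeasureTheory ProbabilityTheory Set Real Function Filter Topology
open scoped ENNReal

namespace Pool.Agent.Lib.MP_de94ef_pr.RF

/-- The defect of convexity on one coordinate. -/
noncomputable def err (a b c : ℝ) : ℝ := max (max a 0 + max b 0 - 2 * max c 0) 0

lemma err_nonneg (a b c : ℝ) : 0 ≤ err a b c := le_max_right _ _

variable {ι : Type} [DecidableEq ι]

theorem prod {m M Λ : ℝ} (m0 : 0 < m) (Λ0 : 0 ≤ Λ) (S : Finset ι) :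
    ∀ p g u : (ι → ℝ) → ℝ, Measurable p → Antitone p → (∀ ω, m ≤ p ω) → (∀ ω, p ω ≤ M) →
      (∀ ω e a b, |p (update ω e a) - p (update ω e b)| ≤ Λ * |a - b|) → Bdd g → (∀ ω, 0 ≤ g ω) →
      Bdd u → (∀ ω, 0 ≤ u ω) → DependsOn p (S : Set ι) → DependsOn g (S : Set ι) →
      DependsOn u (S : Set ι) →
      (∀ x y z, p y ^ 6 * exp (-g x - ∑ e ∈ S, err (z e) (x e) (y e)) ≤ u z) →
      (∫ ω, p ω ∂PP ι) ^ 6 * exp (-∫ ω, g ω ∂PP ι) ≤ ∫ ω, u ω ∂PP ι := by
  induction S using Finset.induction_on with
  | empty =>
    intro p g u _ _ _ _ _ _ _ _ _ dp dg du H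
    have c : ∀ W : (ι → ℝ) → ℝ, DependsOn W ((∅ : Finset ι) : Set ι) →
        ∫ η, W η ∂PP ι = W 0 := fun W hD => by
      have : W = fun _ => W 0 := funext fun η => hD (by simp)
      rw [this]; simp
    rw [c p dp, c g dg, c u du]
    simpa using H 0 0 0
  | insert e S he ih =>
    intro p g u mp ap hm hM lp bg g0 bu u0 dp dg du H
    have bp : Bdd p := ⟨mp, M, fun ω => by rw [abs_of_pos (m0.trans_le (hm ω))]; exact hM ω⟩
    rw [← integral_Ex e bp.integrable, ← integral_Ex e bg.integrable, ← integral_Ex e bu.integrable]
    refine ih _ _ _ (measurable_Ex e mp) (fun ω ω' h => ?_) (Ex_le bp hm e) (fun ω => ?_)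
      (fun ω e' a b => ?_) (bg.Ex e) (Ex_le bg g0 e) (bu.Ex e) (Ex_le bu u0 e) (dependsOn_Ex dp)
      (dependsOn_Ex dg) (dependsOn_Ex du) fun x y z => ?_
    · refine integral_mono (bp.slice e _).integrable (bp.slice e _).integrable fun t => ap ?_
      intro i
      by_cases hi : i = e
      · subst hi; simp
      · simpa [update_of_ne hi] using h i
    · have := integral_mono ((bp.slice e ω).integrable (P := nu)) (integrable_const M)
        fun t => hM _
      simpa [Ex] using this
    · by_cases hi : e' = e
      · subst hi
        simp only [Ex_update, sub_self, abs_zero]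
        positivity
      · unfold Ex
        rw [← integral_sub (bp.slice e _).integrable (bp.slice e _).integrable]
        have := norm_integral_le_of_norm_le_const (μ := nu) (C := Λ * |a - b|)
          (f := fun t => p (update (update ω e' a) e t) - p (update (update ω e' b) e t))
          (ae_of_all _ fun t => by
            rw [update_comm hi, update_comm hi]
            exact lp _ _ _ _)
        simpa using this
    · have h1 := one (p := fun t => p (update y e t)) (g := fun t => g (update x e t))
        (u := fun t => u (update z e t) * exp (∑ e ∈ S, err (z e) (x e) (y e)))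
        (LipschitzWith.of_dist_le' (K := Λ) fun a b => lp y e a b).continuous
        (fun a b h => ap (update_mono h)) m0 (fun _ => hm _) (fun _ => hM _) (bg.slice e x)
        (fun _ => g0 _) ((bu.slice e z).mul (Bdd.const _))
        (fun _ => mul_nonneg (u0 _) (exp_pos _).le) fun a b c ha hb hc => by
          have h2 := H (update x e a) (update y e b) (update z e c)
          have h3 : ∑ i ∈ S, err (update z e c i) (update x e a i) (update y e b i) =
              ∑ i ∈ S, err (z i) (x i) (y i) := Finset.sum_congr rfl fun i hi => by
            have : i ≠ e := fun h => he (h ▸ hi)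
            simp only [update_of_ne this]
          rw [Finset.sum_insert he, h3] at h2
          simp only [update_self, err, max_eq_left ha.le, max_eq_left hb.le,
            max_eq_left hc.le] at h2
          refine le_trans (le_of_eq ?_) (mul_le_mul_of_nonneg_right h2 (exp_pos _).le)
          rw [mul_assoc, ← exp_add]
          congr 2
          simp only [err]
          ring
      rw [integral_mul_const] at h1
      rw [exp_sub, ← mul_div_assoc, div_le_iff₀ (exp_pos _)]
      exact h1

end Pool.Agent.Lib.MP_de94ef_pr.RF
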