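import Pool.Agent.Lib.MP_de94ef_pr.RF.Prod
import Pool.Agent.Lib.MP_de94ef_pr.Upper

/-!
Reflection of the lower tail of a concave function of the weights.
-/

open MeasureTheory ProbabilityTheory Set Real Function Filter Topology
open scoped ENNReal

namespace Pool.Agent.Lib.MP_de94ef_pr.RF

lemma clip_lip (s t : ℝ) : |min 1 (max s 0) - min 1 (max t 0)| ≤ |s - t| := by
  have := le_abs_self (s - t)
  have := neg_abs_le (s - t)
  have := abs_nonneg (s - t)
  rw [abs_le]
  simp only [min_def, max_def]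
  split_ifs <;> constructor <;> linarith

/-- The cost of one reflection. -/
noncomputable def KK (p : ℝ) : ℝ := (1 - 6 * log p) / p

lemma KK_pos {p : ℝ} (p0 : 0 < p) (p1 : p ≤ 1) : 0 < KK p :=
  div_pos (by linarith [log_nonpos p0.le p1]) p0

theorem step {ι : Type} [DecidableEq ι] {φ : (ι → ℝ) → ℝ} {S : Finset ι} (mφ : Measurable φ)
    (mono : Monotone φ) (lip : ∀ ω e a b, |φ (update ω e a) - φ (update ω e b)| ≤ |a - b|)
    (dep : DependsOn φ (S : Set ι))
    (mid : ∀ x y z, φ z + φ x ≤ 2 * φ y + ∑ e ∈ S, err (z e) (x e) (y e)) {p a b : ℝ}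
    (p0 : 0 < p) (hA : p ≤ (PP ι).real {ω | φ ω ≤ a}) (hB : p ≤ (PP ι).real {ω | b ≤ φ ω}) :
    exp (-KK p) ≤ (PP ι).real {ω | φ ω ≤ 2 * a + 2 - b + KK p} := by
  have p1 : p ≤ 1 := hA.trans measureReal_le_one
  have K0 := KK_pos p0 p1
  have hK : KK p * p = 1 - 6 * log p := div_mul_cancel₀ _ p0.ne'
  generalize KK p = K at K0 hK ⊢
  have m0 := exp_pos (-K)
  have m1 : exp (-K) ≤ 1 := exp_le_one_iff.2 (by linarith)
  have c0 : ∀ t : ℝ, 0 ≤ min 1 (max t 0) := fun t => le_min zero_le_one (le_max_right _ _)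
  have c1 : ∀ t : ℝ, min 1 (max t 0) ≤ 1 := fun t => min_le_left _ _
  have sA : MeasurableSet {ω | φ ω ≤ a} := measurableSet_le mφ measurable_const
  have sB : MeasurableSet {ω | φ ω < b} := measurableSet_lt mφ measurable_const
  have sE : MeasurableSet {ω | φ ω ≤ 2 * a + 2 - b + K} := measurableSet_le mφ measurable_const
  have bi : ∀ {s : Set (ι → ℝ)} {c : ℝ}, MeasurableSet s → Bdd (s.indicator fun _ => c) :=
    fun {s c} hs => ⟨measurable_const.indicator hs, |c|, fun ω => by
      by_cases h : ω ∈ s <;> simp [h]⟩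
  have lo : ∀ ω, exp (-K) ≤ 1 - (1 - exp (-K)) * min 1 (max (φ ω - a) 0) := fun ω => by
    nlinarith [c1 (φ ω - a)]
  have up : ∀ ω, 1 - (1 - exp (-K)) * min 1 (max (φ ω - a) 0) ≤ 1 := fun ω => by
    nlinarith [c0 (φ ω - a)]
  have h := prod m0 zero_le_one S (fun ω => 1 - (1 - exp (-K)) * min 1 (max (φ ω - a) 0))
    ({ω | φ ω < b}.indicator fun _ => K)
    (fun ω => {ω | φ ω ≤ 2 * a + 2 - b + K}.indicator (fun _ => (1 : ℝ)) ω + exp (-K))
    (by fun_prop) (fun ω ω' h => by
      have := mono h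
      have : 0 ≤ 1 - exp (-K) := by linarith
      simp only
      gcongr) lo up (fun ω e s t => by
      rw [sub_sub_sub_cancel_left, ← mul_sub, abs_mul, abs_of_nonneg (by linarith), abs_sub_comm]
      refine mul_le_mul (by linarith) ((clip_lip _ _).trans ?_) (abs_nonneg _) zero_le_one
      rw [sub_sub_sub_cancel_right]
      exact lip ω e s t) (bi sB) (fun ω => indicator_nonneg (fun _ _ => K0.le) _)
    ((bi sE).add (Bdd.const _))
    (fun ω => add_nonneg (indicator_nonneg (fun _ _ => zero_le_one) _) m0.le)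
    (fun ω ω' h => by simp only [dep h])
    (fun ω ω' h => by simp only [indicator, mem_setOf_eq, dep h])
    (fun ω ω' h => by simp only [indicator, mem_setOf_eq, dep h]) fun x y z => by
      have e0 : 0 ≤ ∑ e ∈ S, err (z e) (x e) (y e) := Finset.sum_nonneg fun _ _ => err_nonneg _ _ _
      have g0 : 0 ≤ {ω | φ ω < b}.indicator (fun _ => K) x := indicator_nonneg (fun _ _ => K0.le) _
      have q0 := m0.le.trans (lo y)
      have q1 := pow_le_one₀ (n := 6) q0 (up y)
      have q2 : exp (-{ω | φ ω < b}.indicator (fun _ => K) x - ∑ e ∈ S, err (z e) (x e) (y e)) ≤ 1 :=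
        exp_le_one_iff.2 (by linarith)
      by_cases hz : φ z ≤ 2 * a + 2 - b + K
      · rw [indicator_of_mem (show z ∈ {ω | φ ω ≤ 2 * a + 2 - b + K} from hz)]
        exact (mul_le_one₀ q1 (exp_pos _).le q2).trans (by linarith)
      rw [indicator_of_notMem (show z ∉ {ω | φ ω ≤ 2 * a + 2 - b + K} from hz), zero_add]
      by_cases hy : a + 1 ≤ φ y
      · rw [min_eq_left (le_max_of_le_left (by linarith)), mul_one, sub_sub_cancel]
        exact (mul_le_of_le_one_right (by positivity) q2).trans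
          (pow_le_of_le_one m0.le m1 (by norm_num))
      refine (mul_le_of_le_one_left (exp_pos _).le q1).trans (exp_le_exp.2 ?_)
      by_cases hx : φ x < b
      · rw [indicator_of_mem (show x ∈ {ω | φ ω < b} from hx)]
        linarith
      · linarith [mid x y z]
  rw [integral_add (bi sE).integrable (integrable_const _), integral_indicator_const _ sE,
    integral_indicator_const _ sB] at h
  simp only [integral_const, probReal_univ, smul_eq_mul, one_mul, mul_one] at h
  have i1 : p ≤ ∫ ω, 1 - (1 - exp (-K)) * min 1 (max (φ ω - a) 0) ∂PP ι := by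
    refine hA.trans ?_
    rw [← integral_indicator_one sA]
    refine integral_mono ((bi sA).integrable) (Bdd.integrable ⟨by fun_prop, 1, fun ω => ?_⟩)
      fun ω => ?_
    · rw [abs_of_nonneg (m0.le.trans (lo ω))]; exact up ω
    · by_cases hω : φ ω ≤ a
      · rw [indicator_of_mem (show ω ∈ {ω | φ ω ≤ a} from hω)]
        simp [max_eq_right (sub_nonpos.2 hω)]
      · rw [indicator_of_notMem (show ω ∉ {ω | φ ω ≤ a} from hω)]
        exact m0.le.trans (lo ω)
  have i2 : (PP ι).real {ω | φ ω < b} ≤ 1 - p := by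
    have := probReal_compl_eq_one_sub (μ := PP ι) sB
    simp only [compl_setOf, not_lt] at this
    linarith
  have i3 : p ^ 6 * exp (-((1 - p) * K)) = exp 1 * exp (-K) := by
    rw [← exp_log (pow_pos p0 6), log_pow, ← exp_add, ← exp_add]
    congr 1
    push_cast
    linarith
  have i4 : p ^ 6 * exp (-((1 - p) * K)) ≤ _ := le_trans (by gcongr) h
  have i5 := add_one_le_exp 1
  nlinarith

lemma TL_lip {L : ℕ} {u v : VV} (hL : n1 (v - u) ≤ L) (ω : EE → ℝ) (e : EE) (a b : ℝ) :
    |TL L u v (update ω e a) - TL L u v (update ω e b)| ≤ |a - b| := by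
  have : Nonempty {p : GG.Walk u v // ∀ w ∈ p.support, w ∈ box u L} := ⟨⟨_, stair_mem hL⟩⟩
  have key : ∀ a b : ℝ, TL L u v (update ω e a) - |a - b| ≤ TL L u v (update ω e b) :=
    fun a b => le_val fun p => by
      have h1 := TL_le (update ω e a) p.1 p.2
      have h2 := (abs_le.1 (abs_max_sub_max_le_abs a b 0)).2
      by_cases he : e ∈ es p.1
      · rw [wt_update_of_mem ω he] at h1 ⊢
        linarith
      · rw [wt_update_of_notMem ω he] at h1 ⊢
        linarith [abs_nonneg (a - b)]
  have h1 := key a b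
  have h2 := key b a
  rw [abs_sub_comm] at h2
  exact abs_le.2 ⟨by linarith, by linarith⟩

lemma TL_mid {L : ℕ} {u v : VV} (hL : n1 (v - u) ≤ L) (x y z : EE → ℝ) :
    TL L u v z + TL L u v x ≤ 2 * TL L u v y + ∑ e ∈ (box u L).sym2, err (z e) (x e) (y e) := by
  have : Nonempty {p : GG.Walk u v // ∀ w ∈ p.support, w ∈ box u L} := ⟨⟨_, stair_mem hL⟩⟩
  have key : (TL L u v z + TL L u v x - ∑ e ∈ (box u L).sym2, err (z e) (x e) (y e)) / 2 ≤
      TL L u v y := le_val fun p => by
    have h1 := TL_le z p.1 p.2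
    have h2 := TL_le x p.1 p.2
    have h3 : ∑ e ∈ es p.1, err (z e) (x e) (y e) ≤ ∑ e ∈ (box u L).sym2, err (z e) (x e) (y e) :=
      Finset.sum_le_sum_of_subset_of_nonneg (fun e he => Finset.mem_sym2_iff.2 fun w hw =>
        p.2 w (p.1.mem_support_of_mem_edges (mem_es.1 he) hw)) fun _ _ _ => err_nonneg _ _ _
    have h4 : wt z (es p.1) + wt x (es p.1) - 2 * wt y (es p.1) ≤
        ∑ e ∈ es p.1, err (z e) (x e) (y e) := by
      simp only [wt, Finset.mul_sum, ← Finset.sum_add_distrib, ← Finset.sum_sub_distrib]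
      exact Finset.sum_le_sum fun e _ => le_max_left _ _
    linarith
  linarith

end Pool.Agent.Lib.MP_de94ef_pr.RF
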